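import Mathlib
import Pool.Agent.TH258.Cx.Final

set_option autoImplicit false

/-!
# The measure algebra of a compact abelian group need not be a cortex algebra

`M(G)` is the dual of `C₀(G)` (Riesz), with convolution `(μ * ν)(f) = ∫∫ f(x+y) dν(y) dμ(x)`.

The group is `G = ∏_{(k,j) ∈ ℕ × ℕ} (ℤ/2 × ℤ/(k+2))`, a compact metrizable abelian group.

Idea of the proof.  There are product probability measures `κ = ⊗ κ_i`, `η = ⊗ η_i` on `G` with
`η_i = κ_i * w_i`, `w_i` a signed measure that induces a contraction `L²(η_i) → L²(κ_i)` (in the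
language of information theory, the channel `κ_i` is less noisy than `η_i`), whereas no power
`η^n` is a multiple of `κ`, even approximately: `‖η^n - κ * σ‖ ≥ 1` for all measures `σ`.
The contraction property tensorizes and gives `‖η * ν‖² ≤ ‖κ * ν‖ ‖ν‖` for all `ν ∈ M(G)`.  The
distance estimate gives a character `φ` with `φ(κ) = 0` and `|φ(η)| ≥ 1`.  So `κ` and
`η - φ(η) δ_0` lie in the kernel of `φ` and are not joint topological divisors of zero.
-/

open scoped ZeroAtInfty Topology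
open Filter Set

namespace Pool.Agent.Results.MP_4cde56_an.NotCortex
open Pool.Agent.Helper550 Pool.Agent.TH258.Cx

universe u

section definitions
variable {G : Type u} [AddCommGroup G] [TopologicalSpace G] [IsTopologicalAddGroup G] [T2Space G]
    [LocallyCompactSpace G]

/-- The translate `y ↦ f (x + y)` of a function `f` in `C₀(G)`. -/
noncomputable def shift (x : G) (f : C₀(G, ℂ)) : C₀(G, ℂ) :=
  f.comp (Homeomorph.toCocompactMap (Homeomorph.addLeft x))

/-- For a measure `ν` (an element of the dual of `C₀(G)`) and `f` in `C₀(G)`, the function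
`x ↦ ∫ f (x + y) dν(y)`, which lies in `C₀(G)` again. -/
noncomputable def shiftInt (ν : StrongDual ℂ C₀(G, ℂ)) (f : C₀(G, ℂ)) : C₀(G, ℂ) where
  toFun x := ν (shift x f)
  continuous_toFun := (map_continuous ν).comp (Rad.tr_cont f)
  zero_at_infty' := Rad.cv_zero ν f

/-- Convolution: `(μ * ν)(f) = ∫ ∫ f (x + y) dν(y) dμ(x)`. -/
noncomputable def convolve (μ ν : StrongDual ℂ C₀(G, ℂ)) : StrongDual ℂ C₀(G, ℂ) :=
  LinearMap.mkContinuous
    { toFun := fun f => μ (shiftInt ν f)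
      map_add' := fun f g => by
        rw [show shiftInt ν (f + g) = shiftInt ν f + shiftInt ν g from Rad.cv_add ν f g, map_add]
      map_smul' := fun c f => by
        rw [show shiftInt ν (c • f) = c • shiftInt ν f from Rad.cv_smul ν c f, map_smul]; rfl }
    (‖μ‖ * ‖ν‖) (fun f => by
      rw [mul_assoc]
      exact (μ.le_opNorm _).trans (mul_le_mul_of_nonneg_left (Rad.cv_norm ν f) (norm_nonneg _)))

/-- A character of `M(G)`: a nonzero multiplicative linear functional. -/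
def IsCharacter (φ : StrongDual ℂ C₀(G, ℂ) →ₗ[ℂ] ℂ) : Prop :=
  φ ≠ 0 ∧ ∀ α β : StrongDual ℂ C₀(G, ℂ), φ (convolve α β) = φ α * φ β

/-- `d(x₁, …, xₙ) = inf { ∑ ‖x_j * ν‖ : ν ∈ M(G), ‖ν‖ = 1 }`. -/
noncomputable def dd {n : ℕ} (x : Fin n → StrongDual ℂ C₀(G, ℂ)) : ℝ :=
  sInf {r : ℝ | ∃ ν : StrongDual ℂ C₀(G, ℂ), ‖ν‖ = 1 ∧ r = ∑ j, ‖convolve (x j) ν‖}

/-- The subset `S` of `M(G)` consists of joint topological divisors of zero. -/
def JointTDZ (S : Set (StrongDual ℂ C₀(G, ℂ))) : Prop :=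
  ∀ (n : ℕ) (x : Fin n → StrongDual ℂ C₀(G, ℂ)), (∀ j, x j ∈ S) → dd x = 0

end definitions

/-- `M(G)` is a cortex algebra: the kernel of every character consists of joint topological
divisors of zero. -/
def IsCortexAlgebra (G : Type u) [AddCommGroup G] [TopologicalSpace G] [IsTopologicalAddGroup G]
    [T2Space G] [LocallyCompactSpace G] : Prop :=
  ∀ φ : StrongDual ℂ C₀(G, ℂ) →ₗ[ℂ] ℂ, IsCharacter φ → JointTDZ {μ | φ μ = 0}

section sanity
variable {G : Type u} [AddCommGroup G] [TopologicalSpace G] [IsTopologicalAddGroup G] [T2Space G]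
    [LocallyCompactSpace G]

/-- Sanity check: point masses multiply like the group. -/
theorem point_masses (x y : G) (a b c : StrongDual ℂ C₀(G, ℂ)) (ha : ∀ f, a f = f x) (hb : ∀ f, b f = f y)
    (hc : ∀ f, c f = f (x + y)) : convolve a b = c := by
  ext f
  change a (shiftInt b f) = c f
  rw [ha, hc]
  change b (shift x f) = _
  rw [hb]
  rfl

end sanity

/-- There are a compact Hausdorff abelian group `G`, a character `φ` of `M(G)` and two measures in
the kernel of `φ` with `inf { ‖μ₁ * ν‖ + ‖μ₂ * ν‖ : ‖ν‖ = 1 } ≥ 3/4`; in particular `M(G)` is not a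
cortex algebra. -/
theorem result : ∃ (G : Type) (_ : AddCommGroup G) (_ : TopologicalSpace G)
    (_ : IsTopologicalAddGroup G) (_ : T2Space G) (_ : CompactSpace G),
    (∃ φ : StrongDual ℂ C₀(G, ℂ) →ₗ[ℂ] ℂ, IsCharacter φ ∧
      ∃ x : Fin 2 → StrongDual ℂ C₀(G, ℂ), (∀ j, φ (x j) = 0) ∧ 3 / 4 ≤ dd x) ∧
    ¬ IsCortexAlgebra G := by
  have key : ∃ φ : StrongDual ℂ C₀(GG, ℂ) →ₗ[ℂ] ℂ, IsCharacter φ ∧
      ∃ x : Fin 2 → StrongDual ℂ C₀(GG, ℂ), (∀ j, φ (x j) = 0) ∧ 3 / 4 ≤ dd x := by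
    obtain ⟨φ, μ₁, μ₂, h1, h2, h3⟩ := main
    let ψ : StrongDual ℂ C₀(GG, ℂ) →ₗ[ℂ] ℂ :=
      { toFun := fun μ => φ (μ : Rad.Meas GG)
        map_add' := fun a b => map_add φ (a : Rad.Meas GG) (b : Rad.Meas GG)
        map_smul' := fun c a => map_smul φ c (a : Rad.Meas GG) }
    refine ⟨ψ, ⟨?_, ?_⟩, ![μ₁, μ₂], ?_, ?_⟩
    · intro h0
      have h4 : ψ (1 : Rad.Meas GG) = 1 := map_one φ
      rw [h0] at h4
      exact zero_ne_one h4
    · intro α β
      exact map_mul φ (show Rad.Meas GG from α) (show Rad.Meas GG from β)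
    · intro j
      fin_cases j
      · exact h1
      · exact h2
    · have hne : {r : ℝ | ∃ ν : StrongDual ℂ C₀(GG, ℂ), ‖ν‖ = 1 ∧
          r = ∑ j, ‖convolve ((![μ₁, μ₂] : Fin 2 → StrongDual ℂ C₀(GG, ℂ)) j) ν‖}.Nonempty :=
        ⟨_, (1 : Rad.Meas GG), norm_one (α := Rad.Meas GG), rfl⟩
      apply le_csInf hne
      rintro r ⟨ν, hν, rfl⟩
      have h4 : 3 / 4 * ‖ν‖ ≤ ‖convolve μ₁ ν‖ + ‖convolve μ₂ ν‖ := h3 ν
      rw [Fin.sum_univ_two]
      rw [hν, mul_one] at h4
      exact h4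
  refine ⟨GG, inferInstance, inferInstance, inferInstance, inferInstance, inferInstance, key, ?_⟩
  intro hc
  obtain ⟨φ, hφ, x, hx, hd⟩ := key
  have h0 := hc φ hφ 2 x hx
  rw [h0] at hd
  norm_num at hd

end Pool.Agent.Results.MP_4cde56_an.NotCortex
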